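import Pool.Agent.Helper2.NNQ.FarStm

/-!
# Part CAN: a homogeneous Cantor set
-/

set_option autoImplicit false

open MeasureTheory Filter Topology Finset

namespace Pool.Agent.Helper19.NNF

open Pool.Agent.Helper2.NNF

/-- the orbit of `y` -/
noncomputable def Yy (m : ℕ → ℕ) (y : ℝ) : ℕ → ℝ
  | 0 => y
  | j + 1 => m j * Yy m y j - (⌊m j * Yy m y j⌋₊ : ℝ)

/-- the digits -/
noncomputable def dd (m : ℕ → ℕ) (y : ℝ) (j : ℕ) : ℕ := ⌊m j * Yy m y j⌋₊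

/-- the nodes -/
noncomputable def ww (m : ℕ → ℕ) (T : ℕ → ℤ → ℕ → ℤ) (w₀ : ℤ) (y : ℝ) : ℕ → ℤ
  | 0 => w₀
  | j + 1 => T j (ww m T w₀ y j) (dd m y j)

theorem Y_succ (m : ℕ → ℕ) (y : ℝ) (j : ℕ) : Yy m y (j + 1) = m j * Yy m y j - dd m y j := rfl

theorem Y_mem (m : ℕ → ℕ) {y : ℝ} (h0 : 0 ≤ y) (h1 : y < 1) (j : ℕ) :
    0 ≤ Yy m y j ∧ Yy m y j < 1 := by
  induction j with
  | zero => exact ⟨h0, h1⟩
  | succ j ih =>
    have h2 : 0 ≤ (m j : ℝ) * Yy m y j := mul_nonneg (Nat.cast_nonneg _) ih.1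
    have h3 := Nat.floor_le h2
    have h4 := Nat.lt_floor_add_one ((m j : ℝ) * Yy m y j)
    rw [Y_succ, dd]
    constructor <;> linarith

theorem dd_lt {m : ℕ → ℕ} (hm : ∀ j, 2 ≤ m j) {y : ℝ} (h0 : 0 ≤ y) (h1 : y < 1) (j : ℕ) :
    dd m y j < m j := by
  obtain ⟨h2, h3⟩ := Y_mem m h0 h1 j
  have h4 : (0 : ℝ) < m j := by
    have := hm j
    exact_mod_cast (by omega : 0 < m j)
  rw [dd, Nat.floor_lt (mul_nonneg h4.le h2)]
  nlinarith

theorem prod_diff (m : ℕ → ℕ) (y y' : ℝ) (j : ℕ) (h : ∀ l < j, dd m y l = dd m y' l) :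
    Yy m y' j - Yy m y j = (∏ l ∈ range j, (m l : ℝ)) * (y' - y) := by
  induction j with
  | zero => simp [Yy]
  | succ j ih =>
    rw [Y_succ, Y_succ, h j (Nat.lt_succ_self j), prod_range_succ]
    have := ih fun l hl => h l (hl.trans (Nat.lt_succ_self j))
    linear_combination (m j : ℝ) * this

theorem ww_eq (m : ℕ → ℕ) (T : ℕ → ℤ → ℕ → ℤ) (w₀ : ℤ) (y y' : ℝ) (j : ℕ)
    (h : ∀ l < j, dd m y l = dd m y' l) : ww m T w₀ y j = ww m T w₀ y' j := by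
  induction j with
  | zero => rfl
  | succ j ih =>
    rw [ww, ww, h j (Nat.lt_succ_self j), ih fun l hl => h l (hl.trans (Nat.lt_succ_self j))]

theorem two_pow_le {m : ℕ → ℕ} (hm : ∀ j, 2 ≤ m j) (j : ℕ) :
    (2 : ℝ) ^ j ≤ ∏ l ∈ range j, (m l : ℝ) := by
  induction j with
  | zero => simp
  | succ j ih =>
    rw [prod_range_succ, pow_succ]
    have h2 : (2 : ℝ) ≤ m j := by exact_mod_cast hm j
    exact mul_le_mul ih h2 (by norm_num) ((by positivity : (0 : ℝ) ≤ 2 ^ j).trans ih)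

theorem exists_diff {m : ℕ → ℕ} (hm : ∀ j, 2 ≤ m j) {y y' : ℝ} (h0 : 0 ≤ y) (h1 : y < 1)
    (h0' : 0 ≤ y') (h1' : y' < 1) (hne : y ≠ y') :
    ∃ j, (∀ l < j, dd m y l = dd m y' l) ∧ dd m y j ≠ dd m y' j := by
  classical
  have hex : ∃ j, dd m y j ≠ dd m y' j := by
    by_contra hcon
    push Not at hcon
    have h2 : 0 < |y' - y| := abs_pos.2 (sub_ne_zero.2 hne.symm)
    obtain ⟨j, hj⟩ := pow_unbounded_of_one_lt (1 / |y' - y|) (show (1 : ℝ) < 2 by norm_num)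
    have h3 := prod_diff m y y' j fun l _ => hcon l
    have h4 := two_pow_le hm j
    obtain ⟨a1, a2⟩ := Y_mem m h0 h1 j
    obtain ⟨b1, b2⟩ := Y_mem m h0' h1' j
    have h5 : |Yy m y' j - Yy m y j| < 1 := by
      rw [abs_lt]
      constructor <;> linarith
    rw [h3, abs_mul, abs_of_nonneg ((by positivity : (0 : ℝ) ≤ 2 ^ j).trans h4)] at h5
    rw [div_lt_iff₀ h2] at hj
    have h6 := mul_le_mul_of_nonneg_right h4 h2.le
    linarith
  exact ⟨Nat.find hex, fun l hl => not_not.1 (Nat.find_min hex hl), Nat.find_spec hex⟩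

theorem key {s c : ℝ} (hs : 0 < s) (hs1 : s < 1) (hc : 0 < c) {m : ℕ → ℕ} {ε : ℕ → ℝ}
    {W : ℕ → ℤ → Prop} {Ce : ℕ → ℤ → Set ℝ} {T : ℕ → ℤ → ℕ → ℤ} {w₀ : ℤ} (hm : ∀ j, 2 ≤ m j)
    (hε : ∀ j, 0 < ε j)
    (hsep : ∀ j w i i', W j w → i < i' → i' < m j → ∀ x ∈ Ce (j + 1) (T j w i),
      ∀ y ∈ Ce (j + 1) (T j w i'), ((i' : ℝ) - i) * ε j ≤ |x - y|)
    (hcc : ∀ j, c ≤ (∏ l ∈ range j, (m l : ℝ)) * (m j * ε j) ^ s)
    {y y' : ℝ} (h0 : 0 ≤ y) (h1 : y < 1) (h0' : 0 ≤ y') (h1' : y' < 1) {x x' : ℝ}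
    (hW : ∀ j, W j (ww m T w₀ y j))
    (hx : ∀ j, x ∈ Ce j (ww m T w₀ y j)) (hx' : ∀ j, x' ∈ Ce j (ww m T w₀ y' j)) {j : ℕ}
    (hj : ∀ l < j, dd m y l = dd m y' l) (hlt : dd m y j < dd m y' j) :
    |y - y'| ≤ 2 / c * |x - x'| ^ s := by
  obtain ⟨P, hP⟩ : ∃ P : ℝ, P = ∏ l ∈ range j, (m l : ℝ) := ⟨_, rfl⟩
  have hP0 : 0 < P := by
    rw [hP]
    exact (by positivity : (0 : ℝ) < 2 ^ j).trans_le (two_pow_le hm j)
  have hM : (2 : ℝ) ≤ m j := by exact_mod_cast hm j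
  have hM0 : (0 : ℝ) < m j := by linarith
  obtain ⟨D, hD⟩ : ∃ D : ℝ, D = (dd m y' j : ℝ) - dd m y j := ⟨_, rfl⟩
  have hD1 : 1 ≤ D := by
    have : (dd m y j : ℝ) + 1 ≤ dd m y' j := by exact_mod_cast hlt
    rw [hD]
    linarith
  have hDm : D ≤ m j := by
    have h2 : (dd m y' j : ℝ) < m j := by exact_mod_cast dd_lt hm h0' h1' j
    have h3 : (0 : ℝ) ≤ dd m y j := Nat.cast_nonneg _
    rw [hD]
    linarith
  -- the upper bound
  have e1 := prod_diff m y y' j hj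
  rw [← hP] at e1
  obtain ⟨a1, a2⟩ := Y_mem m h0 h1 (j + 1)
  obtain ⟨b1, b2⟩ := Y_mem m h0' h1' (j + 1)
  rw [Y_succ] at a1 a2 b1 b2
  have e2 : (m j : ℝ) * (P * (y' - y)) ≤ 2 * D := by
    rw [← e1, hD]
    rw [hD] at hD1
    nlinarith
  have e3 : 0 ≤ (m j : ℝ) * (P * (y' - y)) := by
    rw [← e1]
    rw [hD] at hD1
    nlinarith
  have hyy : 0 ≤ y' - y := by
    by_contra hn
    push Not at hn
    have := mul_neg_of_pos_of_neg hM0 (mul_neg_of_pos_of_neg hP0 hn)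
    linarith
  -- the lower bound
  have hx1 : x ∈ Ce (j + 1) (T j (ww m T w₀ y j) (dd m y j)) := hx (j + 1)
  have hx2 : x' ∈ Ce (j + 1) (T j (ww m T w₀ y j) (dd m y' j)) := by
    have := hx' (j + 1)
    rw [ww, ← ww_eq m T w₀ y y' j hj] at this
    exact this
  have e4 := hsep j _ _ _ (hW j) hlt (dd_lt hm h0' h1' j) x hx1 x' hx2
  rw [← hD] at e4
  have e5 : D / m j * ((m j * ε j) ^ s) ≤ |x - x'| ^ s := by
    have t1 : (D * ε j) ^ s ≤ |x - x'| ^ s :=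
      Real.rpow_le_rpow (mul_nonneg (by linarith) (hε j).le) e4 hs.le
    have t2 : D * ε j = D / m j * (m j * ε j) := by
      field_simp
    have t3 : 0 < D / m j := by positivity
    have t4 : D / m j ≤ 1 := (div_le_one hM0).2 hDm
    have t5 : D / m j ≤ (D / m j) ^ s := by
      have := Real.rpow_le_rpow_of_exponent_ge t3 t4 hs1.le
      rwa [Real.rpow_one] at this
    have t6 : 0 ≤ ((m j : ℝ) * ε j) ^ s :=
      Real.rpow_nonneg (mul_nonneg hM0.le (hε j).le) _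
    rw [t2, Real.mul_rpow t3.le (mul_nonneg hM0.le (hε j).le)] at t1
    exact (mul_le_mul_of_nonneg_right t5 t6).trans t1
  have e6 := hcc j
  rw [← hP] at e6
  rw [abs_sub_comm, abs_of_nonneg hyy, div_mul_eq_mul_div, le_div_iff₀ hc]
  -- `(y' - y) c ≤ (y' - y) P (m ε)^s ≤ 2 D / m (m ε)^s ≤ 2 |x - x'|^s`
  have t6 : 0 ≤ ((m j : ℝ) * ε j) ^ s :=
    Real.rpow_nonneg (mul_nonneg hM0.le (hε j).le) _
  have e7 : P * (y' - y) ≤ 2 * (D / m j) := by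
    rw [mul_div_assoc', le_div_iff₀ hM0]
    linarith
  calc (y' - y) * c ≤ (y' - y) * (P * ((m j : ℝ) * ε j) ^ s) := mul_le_mul_of_nonneg_left e6 hyy
    _ = P * (y' - y) * ((m j : ℝ) * ε j) ^ s := by ring
    _ ≤ 2 * (D / m j) * ((m j : ℝ) * ε j) ^ s := mul_le_mul_of_nonneg_right e7 t6
    _ = 2 * (D / m j * ((m j : ℝ) * ε j) ^ s) := by ring
    _ ≤ 2 * |x - x'| ^ s := mul_le_mul_of_nonneg_left e5 (by norm_num)

/-- PART CAN. -/
theorem t_CAN : S_CAN := by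
  intro s hs hs1 m ε W Ce T w₀ c hm hε hc hW0 hCe hT hsep hcc
  have hWw : ∀ y : ℝ, 0 ≤ y → y < 1 → ∀ j, W j (ww m T w₀ y j) := by
    intro y h0 h1 j
    induction j with
    | zero => exact hW0
    | succ j ih => exact (hT j _ _ ih (dd_lt hm h0 h1 j)).1
  have hex : ∀ y : ℝ, 0 ≤ y → y < 1 → ∃ x, ∀ j, x ∈ Ce j (ww m T w₀ y j) := by
    intro y h0 h1
    obtain ⟨x, hx⟩ := IsCompact.nonempty_iInter_of_sequence_nonempty_isCompact_isClosed
      (fun j => Ce j (ww m T w₀ y j)) (fun j => (hT j _ _ (hWw y h0 h1 j) (dd_lt hm h0 h1 j)).2)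
      (fun j => (hCe j _ (hWw y h0 h1 j)).1) (hCe 0 _ (hWw y h0 h1 0)).2
      (fun j => (hCe j _ (hWw y h0 h1 j)).2.isClosed)
    exact ⟨x, fun j => Set.mem_iInter.1 hx j⟩
  choose! X hX using hex
  have hmain : ∀ y y' : ℝ, 0 ≤ y → y < 1 → 0 ≤ y' → y' < 1 →
      |y - y'| ≤ 2 / c * |X y - X y'| ^ s := by
    intro y y' h0 h1 h0' h1'
    by_cases hne : y = y'
    · rw [hne, sub_self, abs_zero]
      positivity
    · obtain ⟨j, hj, hjd⟩ := exists_diff hm h0 h1 h0' h1' hne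
      rcases lt_or_gt_of_ne hjd with hlt | hlt
      · exact key hs hs1 hc hm hε hsep hcc h0 h1 h0' h1' (hWw y h0 h1) (hX y h0 h1)
          (hX y' h0' h1') hj hlt
      · rw [abs_sub_comm, abs_sub_comm (X y)]
        exact key hs hs1 hc hm hε hsep hcc h0' h1' h0 h1 (hWw y' h0' h1') (hX y' h0' h1')
          (hX y h0 h1) (fun l hl => (hj l hl).symm) hlt
  set S : Set ℝ := X '' Set.Ico 0 1 with hS
  have hsub : S ⊆ {x : ℝ | ∃ w : ℕ → ℤ, w 0 = w₀ ∧ ∀ j, W j (w j) ∧ x ∈ Ce j (w j)} := by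
    rintro _ ⟨y, ⟨h0, h1⟩, rfl⟩
    exact ⟨ww m T w₀ y, rfl, fun j => ⟨hWw y h0 h1 j, hX y h0 h1 j⟩⟩
  refine le_trans ?_ (dimH_mono hsub)
  have hg1 : ∀ a ∈ S, Function.invFunOn X (Set.Ico 0 1) a ∈ Set.Ico (0 : ℝ) 1 := fun a ha =>
    Function.invFunOn_mem ha
  have hg2 : ∀ a ∈ S, X (Function.invFunOn X (Set.Ico 0 1) a) = a := fun a ha =>
    Function.invFunOn_eq ha
  have hH : HolderOnWith (Real.toNNReal (2 / c)) (Real.toNNReal s)
      (Function.invFunOn X (Set.Ico 0 1)) S := by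
    intro a ha b hb
    have h2 := hmain _ _ (hg1 a ha).1 (hg1 a ha).2 (hg1 b hb).1 (hg1 b hb).2
    rw [hg2 a ha, hg2 b hb] at h2
    rw [edist_dist, edist_dist, Real.dist_eq, Real.dist_eq, Real.coe_toNNReal s hs.le,
      ENNReal.ofReal_rpow_of_nonneg (abs_nonneg _) hs.le]
    show ENNReal.ofReal _ ≤ ENNReal.ofReal (2 / c) * _
    rw [← ENNReal.ofReal_mul (by positivity)]
    exact ENNReal.ofReal_le_ofReal h2
  have hd := hH.dimH_image_le (Real.toNNReal_pos.2 hs)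
  have hsup : Set.Ico (0 : ℝ) 1 ⊆ Function.invFunOn X (Set.Ico 0 1) '' S := by
    rintro y ⟨h0, h1⟩
    have hyS : X y ∈ S := ⟨y, ⟨h0, h1⟩, rfl⟩
    refine ⟨X y, hyS, ?_⟩
    have h2 := hmain _ y (hg1 _ hyS).1 (hg1 _ hyS).2 h0 h1
    rw [hg2 _ hyS, sub_self, abs_zero, Real.zero_rpow hs.ne', mul_zero] at h2
    have h3 := abs_nonpos_iff.1 h2
    linarith
  have h1 : dimH (Set.Ico (0 : ℝ) 1) = 1 := by
    have := Real.dimH_of_nonempty_interior (s := Set.Ico (0 : ℝ) 1) (by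
      rw [interior_Ico]
      exact ⟨1 / 2, by norm_num, by norm_num⟩)
    rw [this]
    simp
  have h2 : (1 : ENNReal) ≤ dimH S / (Real.toNNReal s : ENNReal) := by
    rw [← h1]
    exact (dimH_mono hsup).trans hd
  have h3 := (ENNReal.le_div_iff_mul_le (Or.inl (by
    simpa using hs)) (Or.inl ENNReal.coe_ne_top)).1 h2
  rw [one_mul] at h3
  exact h3

end Pool.Agent.Helper19.NNF
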